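import Pool.Agent.H777R4.DM.Stmts

/-! Project H777-DSH, task DELTA. -/

set_option autoImplicit false

namespace Pool.Agent.H237R3.DM

open Pool.Agent.H777R4.DM

theorem lext_wd {α V : Type} [AddCommGroup V] [Module ℚ V] (F : List α → V) (l : List α) :
    lext F (wd l) = F l := by
  simp [lext, wd]

theorem ext_wd {α V : Type} [AddCommGroup V] [Module ℚ V] {f g : Al α →ₗ[ℚ] V}
    (h : ∀ l, f (wd l) = g (wd l)) : f = g := by
  apply MonoidAlgebra.lhom_ext'
  intro a
  ext
  simpa [wd] using h (FreeMonoid.toList a)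

theorem wd_nil {α : Type} : (wd [] : Al α) = 1 := by
  simp [wd, MonoidAlgebra.one_def]

theorem wd_cons {α : Type} (k : α) (v : List α) : wd (k :: v) = wd [k] * wd v := by
  unfold wd
  rw [← map_mul]
  rfl

theorem inl_wd (u : List ℕ) :
    inl (wd u) = MonoidAlgebra.single (FreeMonoid.ofList u, (1 : FreeMonoid ℕ)) (1 : ℚ) := by
  simp [inl, wd]

theorem inr_wd (u : List ℕ) :
    inr (wd u) = MonoidAlgebra.single ((1 : FreeMonoid ℕ), FreeMonoid.ofList u) (1 : ℚ) := by
  simp [inr, wd]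

theorem pair_eq (u v : List ℕ) : inl (wd u) * inr (wd v) =
    MonoidAlgebra.single (FreeMonoid.ofList u, FreeMonoid.ofList v) (1 : ℚ) := by
  rw [inl_wd, inr_wd, MonoidAlgebra.single_mul_single]
  simp

theorem ext_pair {V : Type} [AddCommGroup V] [Module ℚ V] {f g : AYY →ₗ[ℚ] V}
    (h : ∀ u v, f (inl (wd u) * inr (wd v)) = g (inl (wd u) * inr (wd v))) : f = g := by
  apply MonoidAlgebra.lhom_ext'
  rintro ⟨a, b⟩
  ext
  have := h (FreeMonoid.toList a) (FreeMonoid.toList b)
  rw [pair_eq] at this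
  simpa using this

theorem comm_lr (P Q : AY) : inr Q * inl P = inl P * inr Q := by
  have h1 : ∀ u v : List ℕ, inr (wd v) * inl (wd u) = inl (wd u) * inr (wd v) := by
    intro u v
    rw [pair_eq, inl_wd, inr_wd, MonoidAlgebra.single_mul_single]
    simp
  have h2 : ∀ u : List ℕ, (LinearMap.mulRight ℚ (inl (wd u))) ∘ₗ inr.toLinearMap =
      (LinearMap.mulLeft ℚ (inl (wd u))) ∘ₗ inr.toLinearMap := by
    intro u
    apply ext_wd
    intro v
    simpa using h1 u v
  have h3 : (LinearMap.mulLeft ℚ (inr Q)) ∘ₗ inl.toLinearMap =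
      (LinearMap.mulRight ℚ (inr Q)) ∘ₗ inl.toLinearMap := by
    apply ext_wd
    intro u
    have := LinearMap.congr_fun (h2 u) Q
    simpa using this
  have := LinearMap.congr_fun h3 P
  simpa using this

/-- the derivation of `ℚ⟨Y⟩ ⊗ ℚ⟨Y⟩` -/
noncomputable def D2 : AYY →ₗ[ℚ] AYY :=
  (Finsupp.linearCombination ℚ (fun m : FreeMonoid ℕ × FreeMonoid ℕ =>
    inl (dlW m.1.toList) * inr (wd m.2.toList) + inl (wd m.1.toList) * inr (dlW m.2.toList))) ∘ₗ
    (MonoidAlgebra.coeffLinearEquiv ℚ).toLinearMap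

theorem D2_pair (u v : List ℕ) : D2 (inl (wd u) * inr (wd v)) =
    inl (dlW u) * inr (wd v) + inl (wd u) * inr (dlW v) := by
  rw [pair_eq]
  simp [D2]

theorem dlW_cons (k : ℕ) (v : List ℕ) :
    dlW (k :: v) = dlW [k] * wd v + wd [k] * dlW v := by
  show (k : ℚ) • wd ((k - 1) :: v) + wd [k] * dlW v =
    ((k : ℚ) • wd ((k - 1) :: []) + wd [k] * 0) * wd v + wd [k] * dlW v
  rw [wd_cons (k - 1) v, mul_zero, add_zero, smul_mul_assoc]

theorem D2_inl_mul (k : ℕ) (X : AYY) :
    D2 (inl (wd [k]) * X) = inl (dlW [k]) * X + inl (wd [k]) * D2 X := by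
  have h : D2 ∘ₗ LinearMap.mulLeft ℚ (inl (wd [k])) =
      LinearMap.mulLeft ℚ (inl (dlW [k])) + LinearMap.mulLeft ℚ (inl (wd [k])) ∘ₗ D2 := by
    apply ext_pair
    intro u v
    simp only [LinearMap.comp_apply, LinearMap.add_apply, LinearMap.mulLeft_apply]
    rw [← mul_assoc, ← map_mul, ← wd_cons, D2_pair, D2_pair, dlW_cons k u, wd_cons k u]
    simp only [map_add, map_mul, add_mul, mul_add, mul_assoc]
    abel
  have := LinearMap.congr_fun h X
  simpa using this

theorem D2_inr_mul (k : ℕ) (X : AYY) :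
    D2 (inr (wd [k]) * X) = inr (dlW [k]) * X + inr (wd [k]) * D2 X := by
  have h : D2 ∘ₗ LinearMap.mulLeft ℚ (inr (wd [k])) =
      LinearMap.mulLeft ℚ (inr (dlW [k])) + LinearMap.mulLeft ℚ (inr (wd [k])) ∘ₗ D2 := by
    apply ext_pair
    intro u v
    simp only [LinearMap.comp_apply, LinearMap.add_apply, LinearMap.mulLeft_apply]
    rw [← mul_assoc (inr (wd [k])), comm_lr, mul_assoc, ← map_mul, ← wd_cons, D2_pair, D2_pair,
      dlW_cons k v, wd_cons k v]
    simp only [mul_add]
    rw [← mul_assoc (inr (dlW [k])), ← mul_assoc (inr (wd [k])) (inl (dlW u)),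
      ← mul_assoc (inr (wd [k])) (inl (wd u)), comm_lr, comm_lr, comm_lr]
    simp only [map_add, map_mul, mul_add, mul_assoc]
    abel
  have := LinearMap.congr_fun h X
  simpa using this

theorem shΔ_letter (k : ℕ) : shΔ (wd [k]) = inl (wd [k]) + inr (wd [k]) := by
  have : shΔ (wd [k]) = (FreeMonoid.lift (fun k : ℕ => inl (wd [k]) + inr (wd [k])))
      (FreeMonoid.ofList [k]) := by
    simp [shΔ, wd]
  rw [this]
  simp [FreeMonoid.lift_apply]

theorem shΔ_dlW (v : List ℕ) : shΔ (dlW v) = D2 (shΔ (wd v)) := by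
  induction v with
  | nil =>
    have h1 := D2_pair [] []
    have h2 : dlW [] = 0 := rfl
    rw [h2] at h1 ⊢
    rw [wd_nil, map_one, map_one] at h1
    rw [wd_nil, map_one, map_zero]
    simpa using h1.symm
  | cons k v ih =>
    have h1 : shΔ (dlW [k]) = inl (dlW [k]) + inr (dlW [k]) := by
      show shΔ ((k : ℚ) • wd ((k - 1) :: []) + wd [k] * 0) =
        inl ((k : ℚ) • wd ((k - 1) :: []) + wd [k] * 0) +
          inr ((k : ℚ) • wd ((k - 1) :: []) + wd [k] * 0)
      simp only [mul_zero, add_zero, map_smul, shΔ_letter, smul_add]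
    rw [dlW_cons, wd_cons k v]
    simp only [map_add, map_mul, h1, ih, shΔ_letter, add_mul, D2_inl_mul, D2_inr_mul]
    abel

theorem shΔ_dl (P : AY) : shΔ (dl P) = D2 (shΔ P) := by
  have h : shΔ.toLinearMap ∘ₗ dl = D2 ∘ₗ shΔ.toLinearMap := by
    apply ext_wd
    intro l
    simp only [LinearMap.comp_apply, AlgHom.toLinearMap_apply]
    rw [show dl (wd l) = dlW l from lext_wd dlW l, shΔ_dlW]
  have := LinearMap.congr_fun h P
  simpa using this

theorem D2_inl (P : AY) : D2 (inl P) = inl (dl P) := by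
  have h : D2 ∘ₗ inl.toLinearMap = inl.toLinearMap ∘ₗ dl := by
    apply ext_wd
    intro l
    simp only [LinearMap.comp_apply, AlgHom.toLinearMap_apply]
    rw [show dl (wd l) = dlW l from lext_wd dlW l]
    have h1 := D2_pair l []
    have h2 : dlW [] = 0 := rfl
    rw [h2, wd_nil] at h1
    simpa using h1
  have := LinearMap.congr_fun h P
  simpa using this

theorem D2_inr (P : AY) : D2 (inr P) = inr (dl P) := by
  have h : D2 ∘ₗ inr.toLinearMap = inr.toLinearMap ∘ₗ dl := by
    apply ext_wd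
    intro l
    simp only [LinearMap.comp_apply, AlgHom.toLinearMap_apply]
    rw [show dl (wd l) = dlW l from lext_wd dlW l]
    have h1 := D2_pair [] l
    have h2 : dlW [] = 0 := rfl
    rw [h2, wd_nil] at h1
    simpa using h1
  have := LinearMap.congr_fun h P
  simpa using this

theorem taskDelta : TaskDelta := by
  intro P hP
  show shΔ (dl P) = inl (dl P) + inr (dl P)
  have hP' : shΔ P = inl P + inr P := hP
  rw [shΔ_dl, hP', map_add, D2_inl, D2_inr]

end Pool.Agent.H237R3.DM
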